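import Mathlib

/-! # MP_a65784_al: the block structure of solutions of the Yang-Baxter equation of size `p ^ 2`

For every prime `p` the maps `σ (i, j) (k, l) = (k + j, l + δ)`, `δ = 1` if `k + j = i` and `δ = 0`
otherwise, define an indecomposable and irretractable solution on `ZMod p × ZMod p` whose fibres are
blocks.  In suitable coordinates of the fibres both statements of the problem fail, and for `p ≠ 2`
the second statement fails in all coordinates.
-/

set_option autoImplicit false

namespace Pool.Agent.Results.MP_a65784_al.BlockStructure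

universe u v

/-- `r (x, y) = (σ_x (y), σ⁻¹_{σ_x (y)} (x))` -/
def rmap {X : Type*} (σ : X → Equiv.Perm X) (p : X × X) : X × X :=
  (σ p.1 p.2, (σ (σ p.1 p.2)).symm p.1)

/-- `r₁₂ = r × id` on `X³`. -/
def r12 {X : Type*} (r : X × X → X × X) (t : X × X × X) : X × X × X :=
  ((r (t.1, t.2.1)).1, (r (t.1, t.2.1)).2, t.2.2)

/-- `r₂₃ = id × r` on `X³`. -/
def r23 {X : Type*} (r : X × X → X × X) (t : X × X × X) : X × X × X :=
  (t.1, (r (t.2.1, t.2.2)).1, (r (t.2.1, t.2.2)).2)

/-- `r` is a solution: the braid relation. -/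
def IsSolution {X : Type*} (σ : X → Equiv.Perm X) : Prop :=
  ∀ t, r12 (rmap σ) (r23 (rmap σ) (r12 (rmap σ) t)) =
    r23 (rmap σ) (r12 (rmap σ) (r23 (rmap σ) t))

/-- The permutation group `𝒢(X, r)`. -/
def permGroup {X : Type*} (σ : X → Equiv.Perm X) : Subgroup (Equiv.Perm X) :=
  Subgroup.closure (Set.range σ)

/-- `𝒢(X, r)` is transitive. -/
def Indecomposable {X : Type*} (σ : X → Equiv.Perm X) : Prop :=
  ∀ x y, ∃ g ∈ permGroup σ, g x = y

/-- `σ_x ≠ σ_x'` for `x ≠ x'`. -/
def Irretractable {X : Type*} (σ : X → Equiv.Perm X) : Prop :=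
  ∀ x x', x ≠ x' → σ x ≠ σ x'

/-- The fibre `X_y`. -/
def fibre {Y : Type u} (Z : Type v) (y : Y) : Set (Y × Z) := {x | x.1 = y}

/-- Every element of `𝒢(X, r)` maps every fibre onto a fibre. -/
def FibresAreBlocks {Y : Type u} {Z : Type v} (σ : Y × Z → Equiv.Perm (Y × Z)) : Prop :=
  ∀ g ∈ permGroup σ, ∀ y, ∃ y', g '' fibre Z y = fibre Z y'

/-- The setting of the problem: `|Y| = |Z| = p`, an indecomposable, irretractable solution on
`Y × Z` whose fibres are blocks. -/
structure Setting (p : ℕ) {Y : Type u} {Z : Type v} (σ : Y × Z → Equiv.Perm (Y × Z)) : Prop where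
  cardY : Nat.card Y = p
  cardZ : Nat.card Z = p
  solution : IsSolution σ
  indecomposable : Indecomposable σ
  irretractable : Irretractable σ
  blocks : FibresAreBlocks σ

/-- `β_{y,z}` and `α_{y,z,y'}` are the permutations defined by `σ`. -/
def Form {Y : Type u} {Z : Type v} (σ : Y × Z → Equiv.Perm (Y × Z)) (β : Y → Z → Equiv.Perm Y)
    (α : Y → Z → Y → Equiv.Perm Z) : Prop :=
  ∀ y z y' z', σ (y, z) (y', z') = (β y z y', α y z y' z')

/-- The statement of Q1 for one solution. -/
def Q1For {Y : Type u} {Z : Type v} (β : Y → Z → Equiv.Perm Y) : Prop :=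
  ∀ y y' z, β y z = β y' z

/-- The statement of Q2 for one solution. -/
def Q2For {Y : Type u} {Z : Type v} (β : Y → Z → Equiv.Perm Y) (α : Y → Z → Y → Equiv.Perm Z) :
    Prop :=
  ∀ y y' y'' z z', α y z y' = α y z' y'' ↔ β y z y' = β y z' y''

/-- The transported family of permutations. -/
def transport {X : Type u} {X' : Type v} (e : X ≃ X') (σ : X → Equiv.Perm X) (x : X') :
    Equiv.Perm X' :=
  (e.symm.trans (σ (e.symm x))).trans e

/-! ### The family -/

section family

variable (p : ℕ)

/-- the increment -/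
def del (i k : ZMod p) : ZMod p := if k = i then 1 else 0

/-- `σ (i, j) (k, l) = (k + j, l + del i (k + j))` -/
def sig (x : ZMod p × ZMod p) : Equiv.Perm (ZMod p × ZMod p) where
  toFun y := (y.1 + x.2, y.2 + del p x.1 (y.1 + x.2))
  invFun y := (y.1 - x.2, y.2 - del p x.1 y.1)
  left_inv y := by ext <;> simp
  right_inv y := by ext <;> simp

theorem sig_apply (i j k l : ZMod p) :
    sig p (i, j) (k, l) = (k + j, l + del p i (k + j)) := rfl

theorem sig_symm (i j k l : ZMod p) :
    (sig p (i, j)).symm (k, l) = (k - j, l - del p i k) := rfl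

theorem rmap_sig (i j k l : ZMod p) :
    rmap (sig p) ((i, j), (k, l)) =
      ((k + j, l + del p i (k + j)), (i - (l + del p i (k + j)), j - del p (k + j) i)) := rfl

theorem del_comm (i k : ZMod p) : del p i k = del p k i := by
  unfold del
  by_cases h : k = i
  · simp [h]
  · rw [if_neg h, if_neg (Ne.symm h)]

theorem del_congr {i k i' k' : ZMod p} (h : k - i = k' - i') : del p i k = del p i' k' := by
  unfold del
  have : k = i ↔ k' = i' := by
    rw [← sub_eq_zero, h, sub_eq_zero]
  simp [this]

theorem isSolution_sig : IsSolution (sig p) := by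
  rintro ⟨⟨i, j⟩, ⟨k, l⟩, ⟨m, n⟩⟩
  simp only [r12, r23, rmap_sig]
  have e1 : del p (k + j) i = del p i (k + j) := (del_comm p i (k + j)).symm
  have e3 : del p (m + l) k = del p k (m + l) := (del_comm p k (m + l)).symm
  rw [e1, e3]
  generalize hD1 : del p i (k + j) = D1
  generalize hD3 : del p k (m + l) = D3
  have h2 : del p (i - (l + D1)) (m + (j - D1)) = del p i (m + l + j) :=
    del_congr p (by ring)
  have h2' : del p (m + (j - D1)) (i - (l + D1)) = del p i (m + l + j) := by
    rw [← del_comm, h2]
  rw [h2, h2', del_comm p (m + l + j) i]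
  generalize hD2 : del p i (m + l + j) = D2
  have h3 : del p (k + j) (m + (j - D1) + (l + D1)) = D3 := by
    rw [← hD3]; exact del_congr p (by ring)
  have h3' : del p (m + (j - D1) + (l + D1)) (k + j) = D3 := by
    rw [← del_comm, h3]
  have h1 : del p (i - (n + D3 + D2)) (k - (n + D3) + (j - D2)) = D1 := by
    rw [← hD1]; exact del_congr p (by ring)
  have h1' : del p (k - (n + D3) + (j - D2)) (i - (n + D3 + D2)) = D1 := by
    rw [← del_comm, h1]
  rw [h3, h3', h1, h1']
  refine Prod.ext (Prod.ext ?_ ?_) (Prod.ext (Prod.ext ?_ ?_) (Prod.ext ?_ ?_)) <;>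
    simp only <;> ring

theorem sig_mem (x : ZMod p × ZMod p) : sig p x ∈ permGroup (sig p) :=
  Subgroup.subset_closure ⟨x, rfl⟩

theorem irretractable_sig [Fact (1 < p)] : Irretractable (sig p) := by
  rintro ⟨i, j⟩ ⟨i', j'⟩ hne h
  apply hne
  have h0 := congrArg (fun g : Equiv.Perm (ZMod p × ZMod p) => g (i - j, 0)) h
  simp only [sig_apply] at h0
  have hj : j = j' := by
    have := congrArg Prod.fst h0
    simp only at this
    exact add_left_cancel this
  subst hj
  have h1 := congrArg Prod.snd h0
  simp only [sub_add_cancel, zero_add, del] at h1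
  by_cases hi : i = i'
  · rw [hi]
  · rw [if_neg hi] at h1
    simp at h1

theorem step_snd (k l : ZMod p) : sig p (k, 0) (k, l) = (k, l + 1) := by
  rw [sig_apply, add_zero, del, if_pos rfl]

theorem step_fst [Fact (1 < p)] (k l : ZMod p) : sig p (k, 1) (k, l) = (k + 1, l) := by
  rw [sig_apply, del, if_neg, add_zero]
  simp

theorem reach_snd [NeZero p] (k l : ZMod p) (m : ℕ) :
    ∃ g ∈ permGroup (sig p), g (k, l) = (k, l + m) := by
  induction m with
  | zero => exact ⟨1, one_mem _, by simp⟩
  | succ m ih =>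
    obtain ⟨g, hg, h⟩ := ih
    refine ⟨sig p (k, 0) * g, mul_mem (sig_mem p _) hg, ?_⟩
    rw [Equiv.Perm.mul_apply, h, step_snd]
    push_cast
    rw [add_assoc]

theorem reach_fst [Fact (1 < p)] (k l : ZMod p) (m : ℕ) :
    ∃ g ∈ permGroup (sig p), g (k, l) = (k + m, l) := by
  induction m with
  | zero => exact ⟨1, one_mem _, by simp⟩
  | succ m ih =>
    obtain ⟨g, hg, h⟩ := ih
    refine ⟨sig p (k + m, 1) * g, mul_mem (sig_mem p _) hg, ?_⟩
    rw [Equiv.Perm.mul_apply, h, step_fst]
    push_cast
    rw [add_assoc]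

theorem indecomposable_sig [NeZero p] [Fact (1 < p)] : Indecomposable (sig p) := by
  rintro ⟨k, l⟩ ⟨k', l'⟩
  obtain ⟨g, hg, h⟩ := reach_fst p k l (k' - k).val
  obtain ⟨g', hg', h'⟩ := reach_snd p k' l (l' - l).val
  refine ⟨g' * g, mul_mem hg' hg, ?_⟩
  rw [ZMod.natCast_zmod_val] at h h'
  rw [Equiv.Perm.mul_apply, h, add_sub_cancel, h', add_sub_cancel]

end family

/-! ### Blocks -/

section blocks

variable {Y : Type u} {Z : Type v}

/-- permutations that map fibres onto fibres -/
theorem blocks_of_form {σ : Y × Z → Equiv.Perm (Y × Z)} {β : Y → Z → Equiv.Perm Y}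
    {α : Y → Z → Y → Equiv.Perm Z} (h : Form σ β α) : FibresAreBlocks σ := by
  have key : ∀ g ∈ permGroup σ, ∃ b : Equiv.Perm Y, ∀ x, (g x).1 = b x.1 := by
    intro g hg
    induction hg using Subgroup.closure_induction with
    | mem g hg =>
      obtain ⟨⟨y, z⟩, rfl⟩ := hg
      exact ⟨β y z, fun x => by rw [← Prod.mk.eta (p := x), h]⟩
    | one => exact ⟨1, fun x => rfl⟩
    | mul g g' _ _ h1 h2 =>
      obtain ⟨b, hb⟩ := h1
      obtain ⟨b', hb'⟩ := h2
      exact ⟨b * b', fun x => by rw [Equiv.Perm.mul_apply, hb, hb', Equiv.Perm.mul_apply]⟩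
    | inv g _ h1 =>
      obtain ⟨b, hb⟩ := h1
      refine ⟨b⁻¹, fun x => ?_⟩
      have h2 : g (g⁻¹ x) = x := by simp
      have := hb (g⁻¹ x)
      rw [h2] at this
      rw [this]
      simp
  intro g hg y
  obtain ⟨b, hb⟩ := key g hg
  refine ⟨b y, ?_⟩
  ext x
  simp only [fibre, Set.mem_image, Set.mem_ofPred_eq]
  constructor
  · rintro ⟨x', hx', rfl⟩
    rw [hb, hx']
  · intro hx
    have h2 : g (g⁻¹ x) = x := by simp
    refine ⟨g⁻¹ x, ?_, h2⟩
    have := hb (g⁻¹ x)
    rw [h2, hx] at this
    exact (b.injective this).symm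

end blocks

/-! ### Transport -/

section transport

variable {X : Type u} {X' : Type v} (e : X ≃ X') (σ : X → Equiv.Perm X)

theorem transport_apply (x y : X) : transport e σ (e x) (e y) = e (σ x y) := by
  simp [transport]

theorem transport_symm_apply (x y : X) :
    (transport e σ (e x)).symm (e y) = e ((σ x).symm y) := by
  rw [Equiv.symm_apply_eq, transport_apply, Equiv.apply_symm_apply]

theorem rmap_transport (x y : X) :
    rmap (transport e σ) (e x, e y) = (e (rmap σ (x, y)).1, e (rmap σ (x, y)).2) := by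
  simp only [rmap, transport_apply, transport_symm_apply]

theorem isSolution_transport (h : IsSolution σ) : IsSolution (transport e σ) := by
  rintro ⟨x, y, z⟩
  obtain ⟨x, rfl⟩ := e.surjective x
  obtain ⟨y, rfl⟩ := e.surjective y
  obtain ⟨z, rfl⟩ := e.surjective z
  have h0 := h (x, y, z)
  simp only [r12, r23, rmap_transport, Prod.mk.injEq, EmbeddingLike.apply_eq_iff_eq] at h0 ⊢
  exact h0

theorem mem_permGroup_transport {g : Equiv.Perm X} (hg : g ∈ permGroup σ) :
    (e.symm.trans g).trans e ∈ permGroup (transport e σ) := by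
  induction hg using Subgroup.closure_induction with
  | mem g hg =>
    obtain ⟨x, rfl⟩ := hg
    refine Subgroup.subset_closure ⟨e x, ?_⟩
    simp [transport]
  | one =>
    have : (e.symm.trans (1 : Equiv.Perm X)).trans e = 1 := by ext x; simp
    rw [this]
    exact one_mem _
  | mul g g' _ _ h1 h2 =>
    have : (e.symm.trans (g * g')).trans e =
        ((e.symm.trans g).trans e) * ((e.symm.trans g').trans e) := by ext x; simp
    rw [this]
    exact mul_mem h1 h2
  | inv g _ h1 =>
    have : (e.symm.trans g⁻¹).trans e = ((e.symm.trans g).trans e)⁻¹ := by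
      rw [eq_inv_iff_mul_eq_one]
      ext x
      simp
    rw [this]
    exact inv_mem h1

theorem indecomposable_transport (h : Indecomposable σ) : Indecomposable (transport e σ) := by
  intro x y
  obtain ⟨g, hg, hxy⟩ := h (e.symm x) (e.symm y)
  exact ⟨_, mem_permGroup_transport e σ hg, by simp [hxy]⟩

theorem irretractable_transport (h : Irretractable σ) : Irretractable (transport e σ) := by
  intro x x' hne hxx
  refine h (e.symm x) (e.symm x') (fun h0 => hne (e.symm.injective h0)) ?_
  ext y
  have := congrArg (fun g : Equiv.Perm X' => g (e y)) hxx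
  simpa [transport] using this

end transport

/-! ### The two statements -/

section main

variable (p : ℕ)

/-- `β` of the family -/
def bet (_i j : ZMod p) : Equiv.Perm (ZMod p) := Equiv.addRight j

/-- `α` of the family -/
def alp (i j k : ZMod p) : Equiv.Perm (ZMod p) := Equiv.addRight (del p i (k + j))

theorem form_sig : Form (sig p) (bet p) (alp p) := fun _ _ _ _ => rfl

theorem setting_sig (hp : p.Prime) : Setting p (sig p) := by
  have : NeZero p := ⟨hp.ne_zero⟩
  have : Fact (1 < p) := ⟨hp.one_lt⟩
  exact ⟨Nat.card_zmod p, Nat.card_zmod p, isSolution_sig p, indecomposable_sig p,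
    irretractable_sig p, blocks_of_form (form_sig p)⟩

/-- The coordinate change which exchanges `0` and `1` in the fibre of `0`. -/
def swp : (ZMod p × ZMod p) ≃ (ZMod p × ZMod p) where
  toFun x := (x.1, if x.1 = 0 then Equiv.swap 0 1 x.2 else x.2)
  invFun x := (x.1, if x.1 = 0 then Equiv.swap 0 1 x.2 else x.2)
  left_inv x := by
    ext
    · rfl
    · by_cases h : x.1 = 0 <;> simp [h]
  right_inv x := by
    ext
    · rfl
    · by_cases h : x.1 = 0 <;> simp [h]

/-- the permutation of the fibre -/
def lam (y : ZMod p) : Equiv.Perm (ZMod p) := if y = 0 then Equiv.swap 0 1 else 1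

theorem swp_apply (y z : ZMod p) : swp p (y, z) = (y, lam p y z) := by
  unfold swp lam
  by_cases h : y = 0 <;> simp [h]

theorem swp_symm_apply (y z : ZMod p) : (swp p).symm (y, z) = (y, lam p y z) := by
  unfold swp lam
  by_cases h : y = 0 <;> simp [h]

theorem lam_lam (y z : ZMod p) : lam p y (lam p y z) = z := by
  unfold lam
  by_cases h : y = 0 <;> simp [h]

/-- `β` after the coordinate change -/
def bet' (y z : ZMod p) : Equiv.Perm (ZMod p) := bet p y (lam p y z)

/-- `α` after the coordinate change -/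
def alp' (y z y' : ZMod p) : Equiv.Perm (ZMod p) :=
  lam p (bet' p y z y') * alp p y (lam p y z) y' * lam p y'

theorem form_swp : Form (transport (swp p) (sig p)) (bet' p) (alp' p) := by
  intro y z y' z'
  have h1 : (y, z) = swp p (y, lam p y z) := by rw [swp_apply, lam_lam]
  have h2 : (y', z') = swp p (y', lam p y' z') := by rw [swp_apply, lam_lam]
  rw [h1, h2, transport_apply, form_sig p, swp_apply]
  simp only [bet', alp', Equiv.Perm.mul_apply]

/-- A coordinate system of the solution `sig p`: a bijection onto `Y × Z` which maps the fibres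
onto the fibres. -/
def IsCoordinate {p : ℕ} {Y : Type u} {Z : Type v} (e : (ZMod p × ZMod p) ≃ (Y × Z)) : Prop :=
  ∀ x x', (e x).1 = (e x').1 ↔ x.1 = x'.1

section coord

variable {p} {Y : Type u} {Z : Type v} (e : (ZMod p × ZMod p) ≃ (Y × Z)) (he : IsCoordinate e)
  (β : Y → Z → Equiv.Perm Y) (α : Y → Z → Y → Equiv.Perm Z)
  (h : Form (transport e (sig p)) β α)

include h he in
theorem coord_bet (i j k : ZMod p) :
    β (e (i, j)).1 (e (i, j)).2 (e (k, 0)).1 = (e (k + j, 0)).1 := by
  have h0 := h (e (i, j)).1 (e (i, j)).2 (e (k, 0)).1 (e (k, 0)).2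
  rw [Prod.mk.eta, Prod.mk.eta, transport_apply, sig_apply] at h0
  have h3 := congrArg Prod.fst h0
  simp only at h3
  rw [← h3, he]

include h he in
theorem coord_alp (i j k z : ZMod p) :
    α (e (i, j)).1 (e (i, j)).2 (e (k, 0)).1 (e (k, z)).2 =
      (e (k + j, z + del p i (k + j))).2 := by
  have h0 := h (e (i, j)).1 (e (i, j)).2 (e (k, z)).1 (e (k, z)).2
  rw [Prod.mk.eta, Prod.mk.eta, transport_apply, sig_apply] at h0
  have h3 := congrArg Prod.snd h0
  simp only at h3
  rw [h3, (he (k, 0) (k, z)).2 rfl]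

include he in
theorem coord_q2 (hq : Q2For β α) (i j j' k k' : ZMod p) :
    α (e (i, j)).1 (e (i, j)).2 (e (k, 0)).1 = α (e (i, j')).1 (e (i, j')).2 (e (k', 0)).1 ↔
      β (e (i, j)).1 (e (i, j)).2 (e (k, 0)).1 = β (e (i, j')).1 (e (i, j')).2 (e (k', 0)).1 := by
  have h1 : (e (i, j')).1 = (e (i, j)).1 := (he _ _).2 rfl
  rw [h1]
  exact hq _ _ _ _ _

include h he in
/-- If the second statement holds, the coordinate in the fibre is the same for all fibres. -/
theorem coord_const [Fact p.Prime] (hq : Q2For β α) (k k' z : ZMod p) :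
    (e (k, z)).2 = (e (k', z)).2 := by
  have h1 := (coord_q2 e he β α hq 1 (0 - k) (0 - k') k k').2 (by
    rw [coord_bet e he β α h, coord_bet e he β α h, add_sub_cancel, add_sub_cancel])
  have h2 := coord_alp e he β α h 1 (0 - k) k z
  have h3 := coord_alp e he β α h 1 (0 - k') k' z
  rw [add_sub_cancel] at h2 h3
  rw [← h3, h1] at h2
  exact (Equiv.injective _ h2)

include h he in
/-- For odd `p` the second statement fails in every coordinate system. -/
theorem coord_not_q2 (hp : p.Prime) (h2 : p ≠ 2) : ¬ Q2For β α := by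
  intro hq
  have : Fact p.Prime := ⟨hp⟩
  have hcard : (2 : ZMod p) ≠ 0 := by
    intro h0
    have : ((2 : ℕ) : ZMod p) = 0 := by exact_mod_cast h0
    rw [ZMod.natCast_eq_zero_iff] at this
    exact h2 ((Nat.prime_dvd_prime_iff_eq hp Nat.prime_two).1 this)
  have h1 : α (e (0, 1)).1 (e (0, 1)).2 (e (0, 0)).1 =
      α (e (0, 2)).1 (e (0, 2)).2 (e (0, 0)).1 := by
    ext w
    obtain ⟨⟨a, b⟩, hab⟩ := e.surjective ((e (0, 0)).1, w)
    have ha : a = 0 := by
      have : (e (a, b)).1 = (e (0, 0)).1 := by rw [hab]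
      exact (he _ _).1 this
    subst ha
    have hw : w = (e (0, b)).2 := by rw [hab]
    rw [hw, coord_alp e he β α h, coord_alp e he β α h, zero_add, zero_add, del, del,
      if_neg one_ne_zero, if_neg hcard, add_zero]
    exact coord_const e he β α h hq 1 2 b
  have h4 := (coord_q2 e he β α hq 0 1 2 0 0).1 h1
  rw [coord_bet e he β α h, coord_bet e he β α h, he] at h4
  simp only [zero_add] at h4
  have h5 : (2 : ZMod p) - 1 = 0 := by rw [← h4, sub_self]
  have h6 : (2 : ZMod p) - 1 = 1 := by ring
  rw [h6] at h5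
  exact one_ne_zero h5

end coord

theorem isCoordinate_swp : IsCoordinate (swp p) := fun _ _ => Iff.rfl

theorem setting_transport (hp : p.Prime) {Y : Type u} {Z : Type v}
    (e : (ZMod p × ZMod p) ≃ (Y × Z)) (he : IsCoordinate e) (β : Y → Z → Equiv.Perm Y)
    (α : Y → Z → Y → Equiv.Perm Z) (h : Form (transport e (sig p)) β α) :
    Setting p (transport e (sig p)) := by
  have hs := setting_sig p hp
  refine ⟨?_, ?_, isSolution_transport e _ hs.solution,
    indecomposable_transport e _ hs.indecomposable, irretractable_transport e _ hs.irretractable,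
    blocks_of_form h⟩
  · have hbij : Function.Bijective fun a : ZMod p => (e (a, 0)).1 := by
      constructor
      · intro a b hab
        exact (he _ _).1 hab
      · intro y
        obtain ⟨z⟩ : Nonempty Z := ⟨(e (0, 0)).2⟩
        obtain ⟨⟨a, b⟩, hab⟩ := e.surjective (y, z)
        refine ⟨a, ?_⟩
        change (e (a, 0)).1 = y
        rw [(he (a, 0) (a, b)).2 rfl, hab]
    rw [← Nat.card_eq_of_bijective _ hbij, Nat.card_zmod]
  · have hbij : Function.Bijective fun b : ZMod p => (e (0, b)).2 := by
      constructor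
      · intro a b hab
        have h1 : (e (0, a)).1 = (e (0, b)).1 := (he _ _).2 rfl
        have h2 := e.injective (Prod.ext h1 hab)
        exact congrArg Prod.snd h2
      · intro z
        obtain ⟨⟨a, b⟩, hab⟩ := e.surjective ((e (0, 0)).1, z)
        have ha : a = 0 := by
          have : (e (a, b)).1 = (e (0, 0)).1 := by rw [hab]
          exact (he _ _).1 this
        subst ha
        exact ⟨b, by change (e (0, b)).2 = z; rw [hab]⟩
    rw [← Nat.card_eq_of_bijective _ hbij, Nat.card_zmod]

end main

/-- (1) For every prime `p` there is an indecomposable, irretractable solution of the Yang-Baxter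
equation on `X = Y × Z`, `|Y| = |Z| = p`, whose fibres are blocks, for which the statements of Q1
and of Q2 both fail.  (2) For every odd prime `p` there is such a solution for which the statement
of Q1 holds and the statement of Q2 fails, and the latter remains true in all other coordinate
systems: whenever the set `X` is identified with a product `Y × Z` in such a way that the fibres
remain the same, the transported solution is in the setting of the problem and violates the
statement of Q2. -/
theorem result :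
    (∀ p : ℕ, p.Prime → ∃ (σ : ZMod p × ZMod p → Equiv.Perm (ZMod p × ZMod p))
      (β : ZMod p → ZMod p → Equiv.Perm (ZMod p))
      (α : ZMod p → ZMod p → ZMod p → Equiv.Perm (ZMod p)),
      Setting p σ ∧ Form σ β α ∧ ¬ Q1For β ∧ ¬ Q2For β α) ∧
    (∀ p : ℕ, p.Prime → p ≠ 2 → ∃ (σ : ZMod p × ZMod p → Equiv.Perm (ZMod p × ZMod p))
      (β : ZMod p → ZMod p → Equiv.Perm (ZMod p))
      (α : ZMod p → ZMod p → ZMod p → Equiv.Perm (ZMod p)),
      Setting p σ ∧ Form σ β α ∧ Q1For β ∧ ¬ Q2For β α ∧
      ∀ (Y : Type u) (Z : Type v) (e : (ZMod p × ZMod p) ≃ (Y × Z)), IsCoordinate e →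
        ∀ (β' : Y → Z → Equiv.Perm Y) (α' : Y → Z → Y → Equiv.Perm Z),
          Form (transport e σ) β' α' → Setting p (transport e σ) ∧ ¬ Q2For β' α') := by
  refine ⟨fun p hp => ⟨transport (swp p) (sig p), bet' p, alp' p,
    setting_transport p hp (swp p) (isCoordinate_swp p) _ _ (form_swp p), form_swp p, ?_, ?_⟩,
    fun p hp h2 => ⟨sig p, bet p, alp p, setting_sig p hp, form_sig p, fun _ _ _ => rfl, ?_,
      fun Y Z e he β' α' h => ⟨setting_transport p hp e he β' α' h,
        coord_not_q2 e he β' α' h hp h2⟩⟩⟩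
  · intro hq
    have : Fact p.Prime := ⟨hp⟩
    have h1 := congrArg (fun g : Equiv.Perm (ZMod p) => g 0) (hq 0 1 0)
    simp [bet', bet, lam] at h1
  · intro hq
    have : Fact p.Prime := ⟨hp⟩
    have h1 := coord_const (swp p) (isCoordinate_swp p) _ _ (form_swp p) hq 0 1 0
    rw [swp_apply, swp_apply] at h1
    simp [lam] at h1
  · have h := coord_not_q2 (p := p) (Equiv.refl _) (fun _ _ => Iff.rfl) (bet p) (alp p)
      (form_sig p) hp h2
    exact h

end Pool.Agent.Results.MP_a65784_al.BlockStructure
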